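import Pool.Agent.H.MP_07ea7a_an.B

namespace Pool.Agent.H.MP_fcbc3e_an

open Filter Topology Set Pool.Agent.H.MP_07ea7a_an
open scoped ContDiff

variable {d : ℕ} {𝕂 : Type} [RCLike 𝕂]

/-- some smooth function has a dense projective orbit -/
def Super (Ω : Set (Fin d → ℝ)) (w : (Fin d → ℝ) → 𝕂) (ψ : (Fin d → ℝ) → Fin d → ℝ) : Prop :=
  ∃ g : (Fin d → ℝ) → 𝕂, ContDiffOn ℝ ∞ g Ω ∧ ∀ f : (Fin d → ℝ) → 𝕂, ContDiffOn ℝ ∞ f Ω →
    ∀ K ⊆ Ω, IsCompact K → ∀ (n : ℕ) (ε : ℝ), 0 < ε →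
      ∃ (m : ℕ) (c : 𝕂), Near K n ε (c • (T w ψ)^[m] g) f

variable {Ω : Set (Fin d → ℝ)} {w : (Fin d → ℝ) → 𝕂} {ψ : (Fin d → ℝ) → Fin d → ℝ}

instance (j : ℕ) : SecondCountableTopology ((Fin d → ℝ) [×j]→L[ℝ] 𝕂) := by
  have : FiniteDimensional ℝ (MultilinearMap ℝ (fun _ : Fin j => Fin d → ℝ) 𝕂) :=
    Module.Finite.multilinearMap
  have : FiniteDimensional ℝ ((Fin d → ℝ) [×j]→L[ℝ] 𝕂) :=
    FiniteDimensional.of_injective ContinuousMultilinearMap.toMultilinearMapLinear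
      ContinuousMultilinearMap.toMultilinearMap_injective
  have := FiniteDimensional.proper ℝ ((Fin d → ℝ) [×j]→L[ℝ] 𝕂)
  infer_instance

theorem sep1 (hΩ : IsOpen Ω) {L} (hL : L ⊆ Ω) (hc : IsCompact L) (n : ℕ) :
    ∃ D : ℕ → (Fin d → ℝ) → 𝕂, (∀ k, ContDiffOn ℝ ∞ (D k) Ω) ∧
      ∀ f, ContDiffOn ℝ ∞ f Ω → ∀ ε > 0, ∃ k, Near L n ε (D k) f := by
  have : CompactSpace L := isCompact_iff_compactSpace.1 hc
  let Φ : {f : (Fin d → ℝ) → 𝕂 // ContDiffOn ℝ ∞ f Ω} →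
      ∀ j : Fin (n + 1), C(L, (Fin d → ℝ) [×j]→L[ℝ] 𝕂) := fun f j =>
    ⟨fun x => iteratedFDeriv ℝ j f.1 x, continuous_iff_continuousAt.2 fun x =>
      ((f.2.contDiffAt (hΩ.mem_nhds (hL x.2))).continuousAt_iteratedFDeriv
        (by exact_mod_cast le_top)).comp continuous_subtype_val.continuousAt⟩
  obtain ⟨t, h1, h2, h3⟩ :=
    (TopologicalSpace.IsSeparable.of_separableSpace (range Φ)).exists_countable_dense_subset
  have hne : t.Nonempty := closure_nonempty_iff.1 ⟨_, h3 ⟨⟨fun _ => 0, contDiffOn_const⟩, rfl⟩⟩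
  obtain ⟨e, rfl⟩ := h2.exists_eq_range hne
  choose D hD using fun k => h1 (mem_range_self k)
  refine ⟨fun k => (D k).1, fun k => (D k).2, fun f hf ε hε => ?_⟩
  have h6 : Φ ⟨f, hf⟩ ∈ closure (range e) := h3 ⟨⟨f, hf⟩, rfl⟩
  obtain ⟨_, ⟨k, rfl⟩, h4⟩ : ∃ y ∈ range e, dist (Φ ⟨f, hf⟩) y < ε :=
    (Metric.mem_closure_iff (α := ∀ j : Fin (n + 1), C(L, (Fin d → ℝ) [×j]→L[ℝ] 𝕂))).1 h6 ε hε
  refine ⟨k, fun x hx j hj => ?_⟩
  rw [← hD, dist_comm] at h4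
  have h7 := (dist_le_pi_dist (Φ (D k)) (Φ ⟨f, hf⟩) (⟨j, by omega⟩ : Fin (n + 1))).trans_lt h4
  have h5 := (ContinuousMap.dist_apply_le_dist (f := Φ (D k) ⟨j, by omega⟩)
    (g := Φ ⟨f, hf⟩ ⟨j, by omega⟩) (⟨x, hx⟩ : L)).trans_lt h7
  rw [dist_eq_norm] at h5
  rw [iteratedFDeriv_sub_apply (((D k).2.contDiffAt (hΩ.mem_nhds (hL hx))).of_le
    (by exact_mod_cast le_top)) ((hf.contDiffAt (hΩ.mem_nhds (hL hx))).of_le
    (by exact_mod_cast le_top))]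
  exact h5

theorem exh (hΩ : IsOpen Ω) : ∃ L : ℕ → Set (Fin d → ℝ), (∀ j, L j ⊆ Ω ∧ IsCompact (L j)) ∧
    Monotone L ∧ ∀ K ⊆ Ω, IsCompact K → ∃ j, K ⊆ L j := by
  have := hΩ.locallyCompactSpace
  let C := CompactExhaustion.choice Ω
  refine ⟨fun j => Subtype.val '' C j, fun j => ⟨Subtype.coe_image_subset _ _,
    (C.isCompact j).image continuous_subtype_val⟩, fun i j h => image_mono (C.subset h),
    fun K hK hc => ?_⟩
  obtain ⟨j, hj⟩ := C.exists_superset_of_isCompact (s := Subtype.val ⁻¹' K)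
    (Topology.IsInducing.subtypeVal.isCompact_preimage' hc (by simpa using hK))
  exact ⟨j, fun x hx => ⟨⟨x, hK hx⟩, hj hx, rfl⟩⟩

theorem near_congr {K : Set (Fin d → ℝ)} {n ε} {f f' g : (Fin d → ℝ) → 𝕂}
    (h : ∀ x ∈ K, f' =ᶠ[𝓝 x] f) (hn : Near K n ε f g) : Near K n ε f' g := by
  intro x hx j hj
  have : f' - g =ᶠ[𝓝 x] f - g := (h x hx).mono fun y hy => by simp [hy]
  rw [(this.iteratedFDeriv ℝ j).self_of_nhds]
  exact hn x hx j hj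

theorem super (H : Nice Ω w ψ) (hr : ∀ K ⊆ Ω, IsCompact K → ∃ m, Disjoint K (ψ^[m] '' K)) :
    Super Ω w ψ := by
  classical
  obtain ⟨L, hL, mL, cL⟩ := exh H.op
  choose D sD hD using fun p : ℕ × ℕ => sep1 (𝕂 := 𝕂) H.op (hL p.1).1 (hL p.1).2 p.2
  obtain ⟨e, he⟩ := exists_surjective_nat (((ℕ × ℕ) × ℕ) × ℕ)
  let St := {s : Set (Fin d → ℝ) × ((Fin d → ℝ) → 𝕂) //
    s.1 ⊆ Ω ∧ IsCompact s.1 ∧ ContDiffOn ℝ ∞ s.2 Ω}
  have step : ∀ (j : ℕ) (s : St), ∃ (s' : St) (m : ℕ),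
      s.1.1 ∪ ψ^[m] '' (s.1.1 ∪ L (e j).1.1.1) ∪ L j ⊆ interior s'.1.1 ∧
      (∀ x ∈ s.1.1, s'.1.2 x = s.1.2 x) ∧
      ∀ x ∈ L (e j).1.1.1, (T w ψ)^[m] s'.1.2 =ᶠ[𝓝 x] D (e j).1.1 (e j).1.2 := by
    rintro j ⟨⟨K, h⟩, h1, h2, h3⟩
    have a1 : K ∪ L (e j).1.1.1 ⊆ Ω := union_subset h1 (hL _).1
    have a2 := h2.union (hL (e j).1.1.1).2
    obtain ⟨m, hm⟩ := hr _ a1 a2
    obtain ⟨h', b1, b2, b3⟩ := H.step h3 (sD (e j).1.1 (e j).1.2) a1 a2 hm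
    obtain ⟨K', c1, c2, c3⟩ := exists_compact_between
      ((h2.union (a2.image_of_continuousOn
        ((iter_smooth H.sψ H.mp m).continuousOn.mono a1))).union (hL j).2) H.op
      (union_subset (union_subset h1 (image_subset_iff.2 fun x hx => H.mp.iterate m (a1 hx)))
        (hL j).1)
    exact ⟨⟨(K', h'), c3, c1, b1⟩, m, c2, fun x hx => (b2 x (Or.inl hx)).self_of_nhds,
      fun x hx => b3 x (Or.inr hx)⟩
  choose nx mm h1 h2 h3 using step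
  let s : ℕ → St := fun j => Nat.rec ⟨(∅, fun _ => 0), empty_subset _, isCompact_empty,
    contDiffOn_const⟩ nx j
  have hs : ∀ j, s (j + 1) = nx j (s j) := fun _ => rfl
  have mono : Monotone fun j => (s j).1.1 := monotone_nat_of_le_succ fun j x hx =>
    interior_subset (h1 j (s j) (Or.inl (Or.inl hx)))
  have stab : ∀ j i, j ≤ i → ∀ x ∈ (s j).1.1, (s i).1.2 x = (s j).1.2 x := by
    intro j i hi x hx
    induction i, hi using Nat.le_induction with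
    | base => rfl
    | succ i hi ih => rw [hs, h2 i (s i) x (mono hi hx), ih]
  let g : (Fin d → ℝ) → 𝕂 := fun x => if h : ∃ j, x ∈ (s j).1.1 then (s h.choose).1.2 x else 0
  have hg : ∀ j, ∀ x ∈ (s j).1.1, g x = (s j).1.2 x := by
    intro j x hx
    have h : ∃ j, x ∈ (s j).1.1 := ⟨j, hx⟩
    simp only [g, dif_pos h]
    rw [← stab _ _ (le_max_left h.choose j) x h.choose_spec, stab _ _ (le_max_right _ j) x hx]
  have hg' : ∀ j, ∀ x ∈ interior (s j).1.1, g =ᶠ[𝓝 x] (s j).1.2 := fun j x hx =>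
    eventually_of_mem (mem_interior_iff_mem_nhds.1 hx) (hg j)
  refine ⟨g, fun x hx => ?_, fun f hf K hK hc n ε hε => ?_⟩
  · obtain ⟨j, hj⟩ := cL {x} (by simpa) isCompact_singleton
    exact (((s (j + 1)).2.2.2.contDiffAt (H.op.mem_nhds hx)).congr_of_eventuallyEq
      (hg' (j + 1) x (h1 j (s j) (Or.inr (hj rfl))))).contDiffWithinAt
  · obtain ⟨i, hi⟩ := cL K hK hc
    obtain ⟨k, hk⟩ := hD (i, n) f hf ε hε
    obtain ⟨j, hj⟩ := he (((i, n), k), 0)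
    refine ⟨mm j (s j), 1, near_congr (f := D (i, n) k) (fun x hx => ?_) fun x hx => hk x (hi hx)⟩
    have a1 := h3 j (s j) x (by rw [hj]; exact hi hx)
    rw [hj] at a1
    refine EventuallyEq.trans ?_ a1
    have a2 := hg' (j + 1) _ (h1 j (s j) (Or.inl (Or.inr ⟨x, Or.inr (by
      rw [hj]; exact hi hx), rfl⟩)))
    filter_upwards [((iter_smooth H.sψ H.mp (mm j (s j))).continuousOn.continuousAt
      (H.op.mem_nhds (hK hx))).eventually a2] with z hz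
    rw [one_smul, T_iter, T_iter, hz, hs]

end Pool.Agent.H.MP_fcbc3e_an
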