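import Pool.Agent.H.MP_fcbc3e_an.A

namespace Pool.Agent.H.MP_fcbc3e_an

open Filter Topology Set Pool.Agent.H.MP_07ea7a_an Real
open scoped ContDiff

noncomputable def c (q : ℝ × ℝ) : ℝ :=
  smoothTransition ((4 * q.1 - q.2) / (q.1 * q.2) ^ 2) *
    smoothTransition ((4 * q.2 - q.1) / (q.1 * q.2) ^ 2) *
    (sin (arsinh (log (q.1 * q.2))) ^ 2 / (q.1 * q.2) ^ 2)

theorem c_nonneg (q) : 0 ≤ c q :=
  mul_nonneg (mul_nonneg (smoothTransition.nonneg _) (smoothTransition.nonneg _)) (by positivity)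

theorem c_smooth {q : ℝ × ℝ} (h : 0 < q.1 ∨ 0 < q.2) : ContDiffAt ℝ ∞ c q := by
  by_cases h1 : 0 < q.1 ∧ 0 < q.2
  · have h2 : q.1 * q.2 ≠ 0 := (mul_pos h1.1 h1.2).ne'
    have h3 : (q.1 * q.2) ^ 2 ≠ 0 := pow_ne_zero _ h2
    have s0 : ContDiffAt ℝ ∞ (fun q : ℝ × ℝ => (q.1 * q.2) ^ 2) q := by fun_prop
    refine ((smoothTransition.contDiff.contDiffAt.comp q (ContDiffAt.div (by fun_prop) s0 h3)).mul
      (smoothTransition.contDiff.contDiffAt.comp q (ContDiffAt.div (by fun_prop) s0 h3))).mul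
      (ContDiffAt.div (ContDiffAt.pow (ContDiffAt.sin (contDiff_arsinh.contDiffAt.comp q
        (ContDiffAt.log (by fun_prop) h2))) 2) s0 h3)
  · refine (contDiffAt_const (c := (0 : ℝ))).congr_of_eventuallyEq ?_
    by_cases h2 : 4 * q.1 - q.2 < 0
    · filter_upwards [ContinuousAt.eventually_lt (f := fun q : ℝ × ℝ => 4 * q.1 - q.2)
        (g := fun _ => 0) (by fun_prop) continuousAt_const h2] with z hz
      rw [c, smoothTransition.zero_of_nonpos (div_nonpos_of_nonpos_of_nonneg hz.le (sq_nonneg _)),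
        zero_mul, zero_mul]
    · have h3 : 4 * q.2 - q.1 < 0 := by
        rcases h with h | h
        · have : q.2 ≤ 0 := not_lt.1 fun h' => h1 ⟨h, h'⟩
          linarith
        · have : q.1 ≤ 0 := not_lt.1 fun h' => h1 ⟨h', h⟩
          linarith
      filter_upwards [ContinuousAt.eventually_lt (f := fun q : ℝ × ℝ => 4 * q.2 - q.1)
        (g := fun _ => 0) (by fun_prop) continuousAt_const h3] with z hz
      rw [c, smoothTransition.zero_of_nonpos (x := (4 * z.2 - z.1) / _)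
        (div_nonpos_of_nonpos_of_nonneg hz.le (sq_nonneg _)), mul_zero, zero_mul]

def Om : Set (Fin 3 → ℝ) := {p | 0 < p 0 ∨ 0 < p 1}

noncomputable def ps (p : Fin 3 → ℝ) : Fin 3 → ℝ := ![2 * p 0, p 1 / 2, p 2 + c (p 0, p 1)]

theorem om_open : IsOpen Om :=
  (isOpen_lt continuous_const (continuous_apply 0)).union
    (isOpen_lt continuous_const (continuous_apply 1))

theorem ps_smooth {p} (hp : p ∈ Om) : ContDiffAt ℝ ∞ ps p := by
  refine contDiffAt_pi.2 fun i => ?_
  fin_cases i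
  · simp only [ps]; simp; fun_prop
  · simp only [ps]; simp; fun_prop
  · simp only [ps]; simp
    exact ContDiffAt.add (by fun_prop) (ContDiffAt.comp (g := c)
      (f := fun z : Fin 3 → ℝ => (z 0, z 1)) p (c_smooth (q := (p 0, p 1)) hp) (by fun_prop))

theorem nice (𝕂 : Type) [RCLike 𝕂] : Nice Om (fun _ => (1 : 𝕂)) ps := by
  refine ⟨om_open, contDiffOn_const, fun p hp => (ps_smooth hp).contDiffWithinAt, ?_,
    fun _ _ => one_ne_zero, ?_, ?_⟩
  · intro p hp
    simpa [Om, ps] using hp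
  · intro p _ q _ h
    have h0 := congrFun h 0
    have h1 := congrFun h 1
    have h2 := congrFun h 2
    simp [ps] at h0 h1 h2
    rw [h0, h1] at h2
    funext i
    fin_cases i
    exacts [h0, h1, by simpa using h2]
  · intro p hp
    rw [injective_iff_map_eq_zero]
    intro v hv
    have hd := ((ps_smooth hp).differentiableAt (by simp)).hasFDerivAt
    have e : ∀ i, fderiv ℝ (fun z => ps z i) p v = 0 := fun i => by
      rw [(hasFDerivAt_pi'.1 hd i).fderiv]
      simp [hv]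
    have a := fun i : Fin 3 => hasFDerivAt_apply (𝕜 := ℝ) i p
    have e0 := e 0
    have e1 := e 1
    have e2 := e 2
    simp only [ps, Matrix.cons_val_zero, Matrix.cons_val_one, Matrix.cons_val] at e0 e1 e2
    rw [((a 0).const_mul 2).fderiv] at e0
    simp only [div_eq_inv_mul] at e1
    rw [((a 1).const_mul 2⁻¹).fderiv] at e1
    have b := ((c_smooth (q := (p 0, p 1)) hp).differentiableAt (by simp)).hasFDerivAt.comp p
      ((a 0).prodMk (a 1))
    have e3 := congrArg (· v) ((a 2).add b).fderiv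
    simp at e0 e1
    have e4 : v 2 = 0 := by
      have := e2.symm.trans e3
      simp [e0, e1] at this
      rw [show ((0, 0) : ℝ × ℝ) = 0 from rfl, map_zero, add_zero] at this
      exact this.symm
    funext i
    fin_cases i
    exacts [e0, e1, e4]

theorem ps_iter (n : ℕ) (p : Fin 3 → ℝ) : ps^[n] p 0 = 2 ^ n * p 0 ∧ ps^[n] p 1 = p 1 / 2 ^ n ∧
    ps^[n] p 2 = p 2 + ∑ i ∈ Finset.range n, c (2 ^ i * p 0, p 1 / 2 ^ i) := by
  induction n with
  | zero => simp
  | succ n ih =>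
    rw [Function.iterate_succ_apply', Finset.sum_range_succ]
    simp only [ps, Matrix.cons_val_zero, Matrix.cons_val_one, Matrix.cons_val, ih.1, ih.2.1, ih.2.2]
    refine ⟨by ring, by field_simp; ring, by ring⟩

theorem not_strong : ∃ K ⊆ Om, IsCompact K ∧ ∃ᶠ m in atTop, ¬ Disjoint K (ps^[m] '' K) := by
  refine ⟨Icc ![0, 0, 0] ![2, 2, 0] ∩ {p | 1 ≤ p 0 + p 1}, fun p hp => ?_,
    isCompact_Icc.inter_right (isClosed_le continuous_const (by fun_prop)), ?_⟩
  · by_contra h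
    simp only [Om, mem_setOf_eq, not_or, not_lt] at h
    have : 1 ≤ p 0 + p 1 := hp.2
    linarith [h.1, h.2]
  · rw [frequently_atTop]
    intro M
    set s := exp (-sinh (M * π)) with hs
    have s0 : 0 < s := exp_pos _
    have hM : (M : ℝ) ≤ sinh (M * π) := by
      have h1 : (M : ℝ) ≤ M * π := le_mul_of_one_le_right (Nat.cast_nonneg _) (by linarith [pi_gt_three])
      exact h1.trans (self_le_sinh_iff.2 (by positivity))
    have h2 : (2 : ℝ) ^ M ≤ s⁻¹ := by
      rw [hs, exp_neg, inv_inv]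
      refine le_trans ?_ (exp_le_exp.2 hM)
      rw [← mul_one (M : ℝ), exp_nat_mul]
      gcongr
      linarith [add_one_le_exp 1]
    have h3 : (1 : ℝ) ≤ s⁻¹ := (one_le_pow₀ one_le_two).trans h2
    obtain ⟨n, n1, n2⟩ := exists_nat_pow_near h3 one_lt_two
    have h4 : M < n + 1 := (pow_lt_pow_iff_right₀ one_lt_two).1 (h2.trans_lt n2)
    have s1 : s ≤ 1 := (one_le_inv₀ s0).1 h3
    rw [le_inv_comm₀ (by positivity) s0, ← one_div, le_div_iff₀ (by positivity)] at n1
    rw [inv_lt_comm₀ s0 (by positivity), ← one_div, div_lt_iff₀ (by positivity)] at n2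
    refine ⟨n + 1, h4.le, not_disjoint_iff.2 ⟨_, ?_, ![s, 1, 0], ⟨⟨?_, ?_⟩, ?_⟩, rfl⟩⟩
    · obtain ⟨a0, a1, a2⟩ := ps_iter (n + 1) ![s, 1, 0]
      have a3 : ∑ i ∈ Finset.range (n + 1), c (2 ^ i * s, 1 / 2 ^ i) = 0 := by
        refine Finset.sum_eq_zero fun i _ => ?_
        have : (2 : ℝ) ^ i * s * (1 / 2 ^ i) = s := by field_simp
        simp only [c, this]
        rw [hs, log_exp, arsinh_neg, arsinh_sinh, sin_neg, sin_nat_mul_pi]
        simp
      simp only [Matrix.cons_val_zero, Matrix.cons_val_one, Matrix.cons_val, a3] at a0 a1 a2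
      have b1 : (1 : ℝ) / 2 ^ (n + 1) ≤ 1 := by
        rw [div_le_one (by positivity)]; exact one_le_pow₀ one_le_two
      have b2 : (0 : ℝ) ≤ 1 / 2 ^ (n + 1) := by positivity
      refine ⟨⟨fun i => ?_, fun i => ?_⟩, ?_⟩
      · fin_cases i
        · simp [a0]; positivity
        · simp [a1]
        · simp [a2]
      · fin_cases i
        · simp [a0]; rw [pow_succ]; linarith
        · simp only [Fin.mk_one, a1, Matrix.cons_val_one, Matrix.cons_val_zero]; linarith
        · simp [a2]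
      · simp only [mem_setOf_eq, a0, a1]
        linarith
    · intro i
      fin_cases i <;> simp [s0.le]
    · intro i
      fin_cases i <;> simp
      linarith
    · simp [s0.le]

theorem window (C : ℝ) (M : ℕ) : ∃ n ≥ M, ∀ t : ℝ, |t + n * log 2| ≤ C →
    1 / 4 ≤ sin (arsinh t) ^ 2 := by
  obtain ⟨k, hk⟩ := exists_nat_ge (2 * (|C| + 1) + M)
  set a : ℝ := k * π + π / 2 with ha
  have a1 : (k : ℝ) ≤ sinh a := by
    have h1 : (k : ℝ) ≤ k * π := le_mul_of_one_le_right (Nat.cast_nonneg _) (by linarith [pi_gt_three])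
    have : (k : ℝ) ≤ a := by linarith [pi_pos]
    exact this.trans (self_le_sinh_iff.2 (by positivity))
  have l0 : 0 < log 2 := log_pos one_lt_two
  have l1 : log 2 ≤ 1 := by linarith [log_le_sub_one_of_pos (show (0 : ℝ) < 2 by norm_num)]
  have C0 := abs_nonneg C
  have M0 : (0 : ℝ) ≤ M := Nat.cast_nonneg _
  have s0 : 0 ≤ sinh a / log 2 := div_nonneg (by linarith) l0.le
  refine ⟨⌈sinh a / log 2⌉₊, ?_, fun t ht => ?_⟩
  · have h1 := Nat.le_ceil (sinh a / log 2)
    have h2 : sinh a ≤ sinh a / log 2 := le_div_self (by linarith) l0 l1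
    exact_mod_cast (by linarith : (M : ℝ) ≤ ⌈sinh a / log 2⌉₊)
  · have h1 := Nat.le_ceil (sinh a / log 2)
    have h2 := (Nat.ceil_lt_add_one s0).le
    rw [div_le_iff₀ l0] at h1
    have h3 : ⌈sinh a / log 2⌉₊ * log 2 ≤ sinh a + log 2 := by
      have := mul_le_mul_of_nonneg_right h2 l0.le
      rwa [add_mul, div_mul_cancel₀ _ l0.ne', one_mul] at this
    have h4 := abs_le.1 (ht.trans (le_abs_self C))
    have h5 : |t - -sinh a| ≤ |C| + 1 := abs_le.2 ⟨by linarith [h4.1], by linarith [h4.2]⟩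
    have h6 := Convex.norm_image_sub_le_of_norm_hasDerivWithin_le (f := arsinh)
      (s := Iic (-(|C| + 1))) (C := (|C| + 1)⁻¹) (x := -sinh a) (y := t)
      (fun x _ => (hasDerivAt_arsinh x).hasDerivWithinAt) (fun x hx => by
        rw [norm_inv, norm_eq_abs, abs_of_nonneg (sqrt_nonneg _)]
        refine inv_anti₀ (by positivity) (le_sqrt_of_sq_le ?_)
        have : x ≤ -(|C| + 1) := hx
        nlinarith) (convex_Iic _) (by simp only [mem_Iic]; linarith)
        (by simp only [mem_Iic]; linarith [(abs_le.1 h5).2])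
    rw [norm_eq_abs, norm_eq_abs, arsinh_neg, arsinh_sinh] at h6
    have h7 : |arsinh t - -a| ≤ 1 := h6.trans (by
      rw [inv_mul_le_iff₀ (by positivity)]; linarith)
    obtain ⟨e, he⟩ : ∃ e, e = arsinh t - -a := ⟨_, rfl⟩
    have h8 : arsinh t = e - π / 2 - k * π := by rw [he, ha]; ring
    rw [← he] at h7
    rw [h8, sin_sub_nat_mul_pi, sin_sub_pi_div_two, mul_pow, ← pow_mul, mul_comm k, pow_mul]
    have h9 := one_sub_sq_div_two_le_cos (x := e)
    have : e ^ 2 ≤ 1 := by nlinarith [abs_le.1 h7]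
    rw [neg_one_sq, one_pow, one_mul]
    nlinarith

theorem pass {x y δ R : ℝ} {n : ℕ} (x0 : 0 < x) (x2 : 2 ^ n * x ≤ R) (x3 : δ ≤ 2 ^ n * x)
    (y1 : y ≤ R) (y3 : δ ≤ y) (P2 : 4 * R < 2 ^ n * δ) (δ0 : 0 < δ) (R1 : 1 ≤ R) :
    ∃ i < n, y / 2 ^ i ≤ 2 * (2 ^ i * x) ∧ 2 ^ i * x ≤ 2 * (y / 2 ^ i) := by
  classical
  have n0 : n ≠ 0 := by
    rintro rfl
    simp only [pow_zero, one_mul] at *
    linarith
  obtain ⟨k, rfl⟩ := Nat.exists_eq_succ_of_ne_zero n0
  have hk : y / 2 ^ k ≤ 2 * (2 ^ k * x) := by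
    rw [div_le_iff₀ (by positivity)]
    rw [pow_succ] at x3 P2
    have : (0 : ℝ) < 2 ^ k := by positivity
    nlinarith [mul_le_mul_of_nonneg_left x3 this.le]
  have ex : ∃ i : ℕ, y / 2 ^ i ≤ 2 * (2 ^ i * x) := ⟨k, hk⟩
  refine ⟨Nat.find ex, Nat.lt_succ_of_le (Nat.find_min' ex hk), Nat.find_spec ex, ?_⟩
  rcases h : Nat.find ex with _ | j
  · simp only [pow_zero, one_mul, div_one]
    have : (0 : ℝ) < 2 ^ k.succ := by positivity
    have : 2 ^ k.succ * x < 2 ^ k.succ * δ := by linarith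
    linarith [lt_of_mul_lt_mul_left this (by positivity)]
  · have := Nat.find_min ex (m := j) (by omega)
    rw [not_le, lt_div_iff₀ (by positivity)] at this
    rw [← mul_div_assoc, le_div_iff₀ (by positivity), pow_succ]
    linarith

theorem c_pass {X Y R : ℝ} (X0 : 0 < X) (Y0 : 0 < Y) (X1 : X ≤ R) (Y1 : Y ≤ R) (i2 : Y ≤ 2 * X)
    (i3 : X ≤ 2 * Y) (s3 : 8 * R * (X * Y) < 1) :
    c (X, Y) = sin (arsinh (log (X * Y))) ^ 2 / (X * Y) ^ 2 := by
  have s0 : 0 < X * Y := by positivity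
  have a1 := mul_le_mul_of_nonneg_left X1 s0.le
  have a2 := mul_le_mul_of_nonneg_left Y1 s0.le
  simp only [c]
  rw [smoothTransition.one_of_one_le, smoothTransition.one_of_one_le, one_mul, one_mul]
  · rw [le_div_iff₀ (by positivity), one_mul]
    have : X * Y * X ≤ 1 := by nlinarith
    nlinarith [mul_le_mul_of_nonneg_left this Y0.le]
  · rw [le_div_iff₀ (by positivity), one_mul]
    have : X * Y * Y ≤ 1 := by nlinarith
    nlinarith [mul_le_mul_of_nonneg_left this X0.le]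

theorem runaway (K) (hK : K ⊆ Om) (hc : IsCompact K) : ∃ m, Disjoint K (ps^[m] '' K) := by
  obtain ⟨R0, hR0⟩ := hc.isBounded.exists_norm_le
  obtain ⟨δ, δ0, hδ⟩ := hc.exists_forall_le' (f := fun p => max (p 0) (p 1)) (a := 0)
    (by fun_prop) fun p hp => lt_max_iff.2 (show 0 < p 0 ∨ 0 < p 1 from hK hp)
  set R := |R0| + 1 with hR
  have R1 : 1 ≤ R := by linarith [abs_nonneg R0]
  have hb : ∀ p ∈ K, ∀ i, |p i| ≤ R := fun p hp i =>
    ((norm_le_pi_norm p i).trans (hR0 p hp)).trans (by linarith [le_abs_self R0])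
  obtain ⟨M, hM⟩ := pow_unbounded_of_one_lt (4 * R / δ + 8 * R ^ 3) one_lt_two
  obtain ⟨n, hn, hw⟩ := window (|log (δ * δ)| + |log (R * R)|) M
  refine ⟨n, disjoint_left.2 ?_⟩
  rintro _ hq ⟨p, hp, rfl⟩
  obtain ⟨a0, a1, a2⟩ := ps_iter n p
  have P1 : 4 * R / δ + 8 * R ^ 3 < 2 ^ n := hM.trans_le (pow_le_pow_right₀ one_le_two hn)
  have P0 : (0 : ℝ) < 2 ^ n := by positivity
  have P2 : 4 * R < 2 ^ n * δ := by
    rw [← div_lt_iff₀ δ0]; have : 0 < R ^ 3 := by positivity
    linarith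
  have P3 : 8 * R ^ 3 < 2 ^ n := by have : 0 < 4 * R / δ := by positivity
                                    linarith
  have x1 := abs_le.1 (hb p hp 0)
  have y1 := abs_le.1 (hb p hp 1)
  have u1 := abs_le.1 (hb p hp 2)
  have x2 := abs_le.1 (hb _ hq 0)
  have u2 := abs_le.1 (hb _ hq 2)
  have d1 := le_max_iff.1 (hδ p hp)
  have d2 := le_max_iff.1 (hδ _ hq)
  simp only [a0, a1, a2] at x2 u2 d2
  generalize p 0 = x at *
  generalize p 1 = y at *
  generalize p 2 = u at *
  have x3 : δ ≤ 2 ^ n * x := d2.resolve_right (by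
    rw [le_div_iff₀ P0]; nlinarith)
  have x0 : 0 < x := (mul_pos_iff_of_pos_left P0).1 (δ0.trans_le x3)
  have y3 : δ ≤ y := d1.resolve_left (by
    intro h; nlinarith [mul_le_mul_of_nonneg_left h P0.le])
  have y0 : 0 < y := by linarith
  have s0 : 0 < x * y := by positivity
  have s1 : 2 ^ n * (x * y) ≤ R * R := by
    rw [← mul_assoc]; exact mul_le_mul x2.2 y1.2 y0.le (by linarith)
  have s2 : δ * δ ≤ 2 ^ n * (x * y) := by
    rw [← mul_assoc]; exact mul_le_mul x3 y3 δ0.le (by positivity)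
  have w1 := hw (log (x * y)) (by
    rw [← log_pow, ← log_mul s0.ne' P0.ne', mul_comm]
    have b1 := log_le_log (by positivity) s1
    have b2 := log_le_log (by positivity) s2
    rw [abs_le]
    constructor
    · linarith [neg_abs_le (log (δ * δ)), abs_nonneg (log (R * R))]
    · linarith [le_abs_self (log (R * R)), abs_nonneg (log (δ * δ))])
  obtain ⟨i, i1, i2, i3⟩ := pass x0 x2.2 x3 y1.2 y3 P2 δ0 R1
  have X0 : 0 < 2 ^ i * x := by positivity
  have Y0 : 0 < y / 2 ^ i := by positivity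
  have X1 : 2 ^ i * x ≤ R :=
    (mul_le_mul_of_nonneg_right (pow_le_pow_right₀ one_le_two i1.le) x0.le).trans x2.2
  have Y1 : y / 2 ^ i ≤ R := (div_le_self y0.le (one_le_pow₀ one_le_two)).trans y1.2
  have XY : 2 ^ i * x * (y / 2 ^ i) = x * y := by field_simp
  have s3 : 8 * R * (x * y) < 1 := by
    have : 2 ^ n * (8 * R * (x * y)) < 2 ^ n * 1 := by
      nlinarith [mul_le_mul_of_nonneg_left s1 (show 0 ≤ 8 * R by linarith)]
    exact lt_of_mul_lt_mul_left this P0.le
  have c1 := c_pass X0 Y0 X1 Y1 i2 i3 (XY ▸ s3)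
  rw [XY] at c1
  have c2 : c (2 ^ i * x, y / 2 ^ i) ≤ ∑ i ∈ Finset.range n, c (2 ^ i * x, y / 2 ^ i) :=
    Finset.single_le_sum (f := fun i => c (2 ^ i * x, y / 2 ^ i)) (fun _ _ => c_nonneg _)
      (Finset.mem_range.2 i1)
  have c3 : 2 * R < sin (arsinh (log (x * y))) ^ 2 / (x * y) ^ 2 := by
    rw [lt_div_iff₀ (by positivity)]
    have : x * y ≤ 1 := by nlinarith
    nlinarith [mul_le_mul_of_nonneg_left this (show 0 ≤ 8 * R * (x * y) by positivity)]
  linarith [u1.1, u2.2]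

end Pool.Agent.H.MP_fcbc3e_an
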